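import Pool.Agent.H55.CG.Targets

/-!
# Copolymer, order of the gap: last renewal point before `L`, pinned (module CHX)
-/

set_option autoImplicit false

open MeasureTheory ProbabilityTheory Filter Topology
open Pool.Agent.H95 Pool.Agent.H95.Cop Pool.Agent.H55.CG

namespace Pool.Agent.H14.CG.CHX

/-- the renewal equation in absolute coordinates -/
theorem pz_rec (h : T_PZS) (K : PMF ℕ) (x : ℕ → ℝ) (c z : ℕ) (hcz : c < z) :
    pz K x (z - c) c = ∑ b ∈ Finset.Ico (c + 1) (z + 1),
      kk K (b - c) * wt x c b * pz K x (z - b) b := by
  obtain ⟨d, rfl⟩ : ∃ d, z = c + (d + 1) := ⟨z - c - 1, by omega⟩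
  rw [show c + (d + 1) - c = d + 1 by omega, (h K x c d 0).2.1,
    Finset.sum_Ico_eq_sum_range]
  rw [show c + (d + 1) + 1 - (c + 1) = d + 1 by omega]
  refine Finset.sum_congr rfl fun j hj => ?_
  have hj' := Finset.mem_range.1 hj
  rw [show c + 1 + j = c + (j + 1) by omega, show c + (j + 1) - c = j + 1 by omega,
    show c + (d + 1) - (c + (j + 1)) = d - j by omega]

/-- CHX -/
theorem pf_CHX (h : T_PZS) : T_CHX := by
  intro K x L z hLz B hB
  set G : ℕ → ℝ := fun b => pz K x (z - b) b with hG
  set F : ℕ → ℝ := fun a => ∑ b ∈ B, kk K (b - a) * wt x a b * pz K x (z - b) b with hF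
  have hG0 : ∀ b, 0 ≤ G b := fun b => (h K x b (z - b) 0).2.2.1
  have hmain : ∀ D c : ℕ, c + D = L → ∑ a ∈ Finset.Ico c L, pz K x (a - c) c * F a ≤ G c := by
    intro D
    induction D using Nat.strong_induction_on with
    | _ D ih =>
      intro c hc
      rcases Nat.eq_zero_or_pos D with h0 | h0
      · have : c = L := by omega
        subst this
        simp only [Finset.Ico_self, Finset.sum_empty]
        exact hG0 c
      · have hcL : c < L := by omega
        rw [Finset.sum_eq_sum_Ico_succ_bot hcL]
        have e1 : pz K x (c - c) c * F c = F c := by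
          rw [Nat.sub_self, (h K x c 0 0).1, one_mul]
        have e2 : ∑ a ∈ Finset.Ico (c + 1) L, pz K x (a - c) c * F a =
            ∑ b ∈ Finset.Ico (c + 1) L, kk K (b - c) * wt x c b *
              ∑ a ∈ Finset.Ico b L, pz K x (a - b) b * F a := by
          have e3 : ∀ a ∈ Finset.Ico (c + 1) L, pz K x (a - c) c * F a =
              ∑ b ∈ Finset.Ico (c + 1) (a + 1), kk K (b - c) * wt x c b *
                (pz K x (a - b) b * F a) := by
            intro a ha
            have ha' := Finset.mem_Ico.1 ha
            rw [pz_rec h K x c a (by omega), Finset.sum_mul]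
            exact Finset.sum_congr rfl fun b _ => by ring
          rw [Finset.sum_congr rfl e3]
          simp only [Finset.mul_sum]
          exact (Finset.sum_Ico_Ico_comm (c + 1) L fun b a =>
            kk K (b - c) * wt x c b * (pz K x (a - b) b * F a)).symm
        rw [e1, e2]
        have e4 : ∑ b ∈ Finset.Ico (c + 1) L, kk K (b - c) * wt x c b *
              ∑ a ∈ Finset.Ico b L, pz K x (a - b) b * F a ≤
            ∑ b ∈ Finset.Ico (c + 1) L, kk K (b - c) * wt x c b * G b := by
          refine Finset.sum_le_sum fun b hb => ?_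
          have hb' := Finset.mem_Ico.1 hb
          exact mul_le_mul_of_nonneg_left (ih (L - b) (by omega) b (by omega))
            (mul_nonneg (kk_nonneg K _) (wt_pos x c b).le)
        have e5 : G c = ∑ b ∈ Finset.Ico (c + 1) (z + 1), kk K (b - c) * wt x c b * G b :=
          pz_rec h K x c z (by omega)
        have e6 : Disjoint B (Finset.Ico (c + 1) L) := by
          rw [Finset.disjoint_left]
          intro b hb hb2
          have h1 := Finset.mem_Icc.1 (hB hb)
          have h2 := Finset.mem_Ico.1 hb2
          omega
        have e7 : F c + ∑ b ∈ Finset.Ico (c + 1) L, kk K (b - c) * wt x c b * G b ≤ G c := by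
          rw [e5, show F c = ∑ b ∈ B, kk K (b - c) * wt x c b * G b from rfl,
            ← Finset.sum_union e6]
          refine Finset.sum_le_sum_of_subset_of_nonneg ?_ ?_
          · intro b hb
            rcases Finset.mem_union.1 hb with hb | hb
            · have h1 := Finset.mem_Icc.1 (hB hb)
              exact Finset.mem_Ico.2 ⟨by omega, by omega⟩
            · have h1 := Finset.mem_Ico.1 hb
              exact Finset.mem_Ico.2 ⟨by omega, by omega⟩
          · intro b _ _
            exact mul_nonneg (mul_nonneg (kk_nonneg K _) (wt_pos x c b).le) (hG0 b)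
        linarith
  intro c hc
  exact hmain (L - c) c (by omega)

end Pool.Agent.H14.CG.CHX
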