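import Pool.Agent.H55.CG.Targets

/-!
# Copolymer, order of the gap: from a good block to the next one (module STA)
-/

set_option autoImplicit false

open MeasureTheory ProbabilityTheory Filter Topology
open Pool.Agent.H95 Pool.Agent.H95.Cop Pool.Agent.H55.CG

namespace Pool.Agent.H14.CG.STA

/-- the block functional in absolute coordinates -/
theorem XB_shift (h : T_PZS) (K : PMF ℕ) (ℓ m t : ℕ) (x : ℕ → ℝ) :
    XB K ℓ m (shift t x) = ∑ y ∈ Finset.Ico (ℓ + t) (2 * ℓ + t),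
      ∑ a ∈ Finset.Ico ((2 * m + 1) * ℓ + t) ((2 * m + 2) * ℓ + t), pz K x (a - y) y := by
  unfold XB
  rw [← Finset.sum_Ico_add' (fun y => ∑ a ∈ Finset.Ico ((2 * m + 1) * ℓ + t)
    ((2 * m + 2) * ℓ + t), pz K x (a - y) y) ℓ (2 * ℓ) t]
  refine Finset.sum_congr rfl fun y _ => ?_
  rw [← Finset.sum_Ico_add' (fun a => pz K x (a - (y + t)) (y + t)) ((2 * m + 1) * ℓ)
    ((2 * m + 2) * ℓ) t]
  refine Finset.sum_congr rfl fun a _ => ?_
  rw [(h K x y (a - y) t).2.2.2, show a + t - (y + t) = a - y by omega]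

/-- STA -/
theorem pf_STA (hP : T_PZS) (hV : T_VSU) : T_STA := by
  intro K hK α c n0 hα hc hkk ℓ m N x hℓ hn0 hm j j' hjj hN
  set Bk : ℕ := (2 * m + 2) * ℓ with hBk
  have hpz : ∀ d a, 0 ≤ pz K x d a := fun d a => (hP K x a d 0).2.2.1
  have hB1 : Bk = (2 * m + 1) * ℓ + ℓ := by rw [hBk]; ring
  have hmℓ : 3 * ℓ ≤ (2 * m + 1) * ℓ := Nat.mul_le_mul_right ℓ (by omega)
  have hL : (j + 1) * Bk = j * Bk + Bk := by ring
  have hL' : (j' + 1) * Bk = j' * Bk + Bk := by ring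
  have hjB : (j + 1) * Bk ≤ j' * Bk := Nat.mul_le_mul_right Bk (by omega)
  have hdiff : (j' - j) * Bk = j' * Bk - j * Bk := Nat.sub_mul j' j Bk
  set T : Finset ℕ := Finset.Ico (j' * Bk + ℓ) (j' * Bk + 2 * ℓ) with hT
  set q : ℝ := (((j' - j) * Bk : ℕ) : ℝ) ^ (-(1 + α)) with hq
  have hq0 : 0 ≤ q := by rw [hq]; positivity
  have hSS : SS K ℓ Bk N x j' = ∑ b ∈ T, V K N x b := rfl
  have hRR : ∀ a ∈ Finset.Ico ((2 * m + 1) * ℓ + j * Bk) ((2 * m + 2) * ℓ + j * Bk),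
      c / 2 * q * SS K ℓ Bk N x j' ≤ RR K N x T a := by
    intro a ha
    have ha' := Finset.mem_Ico.1 ha
    rw [← hBk] at ha'
    rw [hSS, Finset.mul_sum]
    unfold RR
    refine Finset.sum_le_sum fun b hb => ?_
    have hb' := Finset.mem_Ico.1 hb
    have hVb := (V_pos K N x b).le
    refine mul_le_mul_of_nonneg_right ?_ hVb
    have h1 : n0 ≤ b - a := by omega
    have h2 : b - a ≤ (j' - j) * Bk := by rw [hdiff]; omega
    have h3 : 1 ≤ b - a := by omega
    have h4 : c * ((b - a : ℕ) : ℝ) ^ (-(1 + α)) ≤ kk K (b - a) := hkk (b - a) h1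
    have h5 : q ≤ ((b - a : ℕ) : ℝ) ^ (-(1 + α)) := by
      rw [hq]
      refine Real.rpow_le_rpow_of_nonpos ?_ ?_ (by linarith)
      · exact_mod_cast h3
      · exact_mod_cast h2
    have h6 : (1 : ℝ) / 2 ≤ wt x a b := by
      unfold wt
      have := Real.exp_pos (H x a b)
      linarith
    have h7 : c * q ≤ kk K (b - a) := le_trans (mul_le_mul_of_nonneg_left h5 hc.le) h4
    calc c / 2 * q = (c * q) * (1 / 2) := by ring
      _ ≤ kk K (b - a) * wt x a b :=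
        mul_le_mul h7 h6 (by norm_num) (kk_nonneg K _)
  have hstep : ∀ y ∈ Finset.Ico (ℓ + j * Bk) (2 * ℓ + j * Bk),
      (∑ a ∈ Finset.Ico ((2 * m + 1) * ℓ + j * Bk) ((2 * m + 2) * ℓ + j * Bk),
        pz K x (a - y) y) * (c / 2 * q * SS K ℓ Bk N x j') ≤ V K N x y := by
    intro y hy
    have hy' := Finset.mem_Ico.1 hy
    have h1 : T ⊆ Finset.Ico ((j + 1) * Bk) N := by
      intro b hb
      have hb' := Finset.mem_Ico.1 hb
      exact Finset.mem_Ico.2 ⟨by omega, by omega⟩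
    have h2 := hV K hK N x ((j + 1) * Bk) (by omega) T h1 y (by omega)
    refine le_trans ?_ h2
    rw [Finset.sum_mul]
    refine le_trans (Finset.sum_le_sum fun a ha =>
      mul_le_mul_of_nonneg_left (hRR a ha) (hpz (a - y) y)) ?_
    refine Finset.sum_le_sum_of_subset_of_nonneg ?_ fun a _ _ =>
      mul_nonneg (hpz _ _) (RR_nonneg K N x T a)
    intro a ha
    have ha' := Finset.mem_Ico.1 ha
    rw [← hBk] at ha'
    exact Finset.mem_Ico.2 ⟨by omega, by omega⟩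
  rw [XB_shift hP, Finset.sum_mul]
  refine le_trans (Finset.sum_le_sum hstep) ?_
  unfold SS
  rw [add_comm ℓ, add_comm (2 * ℓ)]

end Pool.Agent.H14.CG.STA
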